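import Pool.Agent.H60.LQ.Two
import Pool.Agent.H60.LQ.Stmts
import Pool.Agent.H36.Dense.L3

/-!
# LQ0: LPG, level one plus from the gain
-/

set_option autoImplicit false

namespace Pool.LQ

open Finset Real
open Pool.Agent.H49.Ent Pool.Agent.H32.Dense
open Pool.Agent.H24.KTH (lev cap Yf kp CAPStmt)

/-- The energy of the times for the restricted family. -/
lemma lpg_energy {d J N : ℕ} {Ω : Type} [Fintype Ω] {ζ : Type} {p : Ω → ℝ} {Z : Ω → ζ}
    {v : Ω → Fin d → ℤ} {τ : Ω → ℤ} {w : Ω → ℕ} (hp : ∀ ω, 0 ≤ p ω) :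
    Gf (2 ^ J) p (bv (fun ω => (cap J (lev J N (w ω)) (v ω), w ω, Z ω)) v) τ =
      Gf (2 ^ J) p (fun ω => (bv Z v ω, w ω)) τ := by
  refine Gf_congr hp ?_ ?_ _ _
  · intro ω ω' _ _ h
    have h1 := Prod.ext_iff.mp h
    have h2 := Prod.ext_iff.mp h1.2
    have h3 := Prod.ext_iff.mp h2.2
    exact Prod.ext (Prod.ext h1.1 h3.2) h3.1
  · intro ω ω' _ _ h
    have h1 := Prod.ext_iff.mp h
    have h2 := Prod.ext_iff.mp h1.1
    have e1 : v ω = v ω' := h2.1
    have e2 : Z ω = Z ω' := h2.2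
    have e3 : w ω = w ω' := h1.2
    show (v ω, (cap J (lev J N (w ω)) (v ω), w ω, Z ω)) =
      (v ω', (cap J (lev J N (w ω')) (v ω'), w ω', Z ω'))
    rw [e1, e2, e3]

/-- ROW LPG. -/
theorem lpg (h1 : NRG3Stmt) (h2 : RDSStmt) (h3 : CAPStmt) : LPGStmt := by
  intro d a Λ k ha hΛ hk hG ε hε
  have hl0 : (0 : ℝ) ≤ Real.log 2 := Real.log_nonneg (by norm_num)
  have hlh : (1 : ℝ) / 2 ≤ Real.log 2 := by
    have := Real.log_two_gt_d9
    linarith
  obtain ⟨n, hn⟩ := exists_nat_ge (max 1 (8 * k / ε))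
  have hn1 : (1 : ℝ) ≤ n := (le_max_left _ _).trans hn
  have hn0 : 0 < n := by
    have : (0 : ℝ) < n := by linarith
    exact_mod_cast this
  have hnpos : (0 : ℝ) < n := by linarith
  have hkn : k * (1 / n) ≤ ε / 8 := by
    have h := (le_max_right _ _).trans hn
    rw [div_le_iff₀ hε] at h
    rw [mul_one_div, div_le_iff₀ hnpos]
    linarith
  have hak : 0 < a + k + 1 := by linarith
  have hε₁ : 0 < ε / (8 * (a + k + 1)) := by positivity
  set ε₁ := ε / (8 * (a + k + 1)) with hε₁d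
  have hε₁' : (a + k) * ε₁ ≤ ε / 8 := by
    rw [hε₁d, mul_div_assoc', div_le_div_iff₀ (by positivity) (by norm_num)]
    nlinarith
  obtain ⟨C1, J₀, hR⟩ := h2 d n hn0 ε₁ hε₁
  obtain ⟨C2, hC⟩ := h3 d n hn0
  obtain ⟨B₀, B₁, hB₁, hGap⟩ := hG (ε / 4) (by positivity)
  have hε₃ : 0 < ε / (4 * (B₁ + 1)) := by positivity
  set ε₃ := ε / (4 * (B₁ + 1)) with hε₃d
  have hε₃' : B₁ * ε₃ ≤ ε / 4 := by
    rw [hε₃d, mul_div_assoc', div_le_div_iff₀ (by positivity) (by norm_num)]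
    nlinarith
  obtain ⟨C3, hC3, hE⟩ := h1 n ε₃ hε₃
  set D : ℝ := Real.log ((Fintype.piFinset fun _ : Fin d =>
    Finset.Icc (-(2 ^ J₀ : ℤ)) (2 ^ J₀)).card : ℝ) with hD
  have hD0 : 0 ≤ D := Real.log_natCast_nonneg _
  refine ⟨n, hn0, |Λ * C1 + B₀ + B₁ * C3 + C2| +
    (D + (a + k) * (J₀ * Real.log 2) + (a - 1) * D), B₁ * C3, by positivity, ?_⟩
  have hs0 : 0 ≤ D + (a + k) * (J₀ * Real.log 2) + (a - 1) * D := by
    have g1 : 0 ≤ (a - 1) * D := mul_nonneg (by linarith) hD0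
    have g2 : 0 ≤ (a + k) * (J₀ * Real.log 2) :=
      mul_nonneg (by linarith) (mul_nonneg (Nat.cast_nonneg _) hl0)
    linarith
  intro J Ω _ ζ p Z v u τ hfam
  have hJ0 : (0 : ℝ) ≤ J := Nat.cast_nonneg J
  have hJl : (0 : ℝ) ≤ J * Real.log 2 := mul_nonneg hJ0 hl0
  have hJh : (J : ℝ) ≤ 2 * (J * Real.log 2) := by nlinarith
  have hvb : ∀ ω, 0 < p ω → ∀ k, |v ω k| ≤ 2 ^ J := by
    intro ω hω i
    have := hfam.hv ω hω i
    push_cast at this
    exact this
  rcases le_or_gt J₀ J with hJ | hJ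
  · obtain ⟨w, hw, hfam', hK', hY', hS'⟩ := hR J hJ Ω ζ p Z v u τ hfam
    refine ⟨w, hw, ?_⟩
    have hg := hGap J Ω _ p _ v u τ hfam'
    have hEn := hE J Ω _ p (bv Z v) w τ hfam.hp hfam.h1 hw (fun ω hω => by
      have := hfam.hτ ω hω
      push_cast at this
      exact this)
    rw [← lpg_energy (J := J) (N := n) hfam.hp] at hEn
    obtain ⟨-, c2, -, -⟩ := hC J Ω ζ p Z v w hfam.hp hfam.h1 hvb hw
    unfold Pool.KTH.lm at hEn
    have hneg := le_abs_self (Λ * C1 + B₀ + B₁ * C3 + C2)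
    generalize CH p (fun ω => cap J (lev J n (w ω)) (v ω)) (fun ω => (w ω, Z ω)) = h at *
    generalize CH p v (fun ω => (cap J (lev J n (w ω)) (v ω), w ω, Z ω)) = Lp at *
    generalize Sb (2 ^ J) p (fun ω => (cap J (lev J n (w ω)) (v ω), w ω, Z ω)) v u τ = Sbp at *
    generalize Yf (2 ^ J) p (fun ω => (cap J (lev J n (w ω)) (v ω), w ω, Z ω)) v u τ = Yp at *
    generalize Kf (2 ^ J) p (bv (fun ω => (cap J (lev J n (w ω)) (v ω), w ω, Z ω)) v) τ = Kp at *
    generalize Gf (2 ^ J) p (bv (fun ω => (cap J (lev J n (w ω)) (v ω), w ω, Z ω)) v) τ = Gp at *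
    generalize Gf (2 ^ J) p (bv Z v) τ = G at *
    generalize Kf (2 ^ J) p (bv Z v) τ = K at *
    generalize Sb (2 ^ J) p Z v u τ = S at *
    generalize CH p v Z = L at *
    generalize Ex p (fun ω => (w ω : ℝ)) / n = e at *
    have p2 : k * Yp ≤ k * (e * (J * Real.log 2) + (1 / n + ε₁) * J) :=
      mul_le_mul_of_nonneg_left hY' hk
    have p3 : Λ * Kp ≤ Λ * (K + C1) := mul_le_mul_of_nonneg_left hK' hΛ
    have p4 : B₁ * Gp ≤ B₁ * (C3 * (G + 1) + ε₃ * (J * Real.log 2)) :=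
      mul_le_mul_of_nonneg_left hEn hB₁
    have p5 : a * Sbp ≤ a * (S + ε₁ * J - h) :=
      mul_le_mul_of_nonneg_left (by linarith) (by linarith)
    have p6 : B₁ * ε₃ * (J * Real.log 2) ≤ ε / 4 * (J * Real.log 2) :=
      mul_le_mul_of_nonneg_right hε₃' hJl
    have p7 : (a + k) * ε₁ * J ≤ ε / 8 * J := mul_le_mul_of_nonneg_right hε₁' hJ0
    have p8 : k * (1 / n) * J ≤ ε / 8 * J := mul_le_mul_of_nonneg_right hkn hJ0
    have p9 : ε / 4 * J ≤ ε / 4 * (2 * (J * Real.log 2)) :=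
      mul_le_mul_of_nonneg_left hJh (by positivity)
    have x3 : k * (e * (J * Real.log 2) + (1 / n + ε₁) * J) =
        k * e * (J * Real.log 2) + k * (1 / n) * J + k * ε₁ * J := by ring
    have x4 : B₁ * (C3 * (G + 1) + ε₃ * (J * Real.log 2)) =
        B₁ * C3 * G + B₁ * C3 + B₁ * ε₃ * (J * Real.log 2) := by ring
    have x5 : a * (S + ε₁ * J - h) = a * S + a * ε₁ * J - a * h := by ring
    have x6 : (a + k) * ε₁ * J = a * ε₁ * J + k * ε₁ * J := by ring
    have x7 : a * (Sbp - J * Real.log 2) = a * Sbp - a * (J * Real.log 2) := by ring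
    have x8 : k * (J * Real.log 2 - Yp) = k * (J * Real.log 2) - k * Yp := by ring
    have x9 : Λ * (K + C1) = Λ * K + Λ * C1 := by ring
    have x10 : a * (S - J * Real.log 2) = a * S - a * (J * Real.log 2) := by ring
    have x11 : k * ((1 - e) * (J * Real.log 2)) =
        k * (J * Real.log 2) - k * e * (J * Real.log 2) := by ring
    have x12 : (a - 1) * h = a * h - h := by ring
    have x13 : ε / 8 * J = ε / 4 * J / 2 := by ring
    have x14 : ε / 4 * (2 * (J * Real.log 2)) = ε * (J * Real.log 2) / 2 := by ring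
    have x15 : ε / 4 * (J * Real.log 2) = ε * (J * Real.log 2) / 4 := by ring
    rw [x3] at p2
    rw [x4] at p4
    rw [x5] at p5
    rw [x6, x13] at p7
    rw [x13] at p8
    rw [x14] at p9
    rw [x7, x8, x15] at hg
    rw [x9] at p3
    rw [x15] at p6
    rw [x10, x11, x12]
    linarith
  · refine ⟨fun _ => 0, fun _ => Nat.zero_le _, ?_⟩
    have hL : CH p v Z ≤ D := by
      have h4 := CH_le_card hfam.hp hfam.h1 v Z (fun _ => Fintype.piFinset fun _ : Fin d =>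
        Finset.Icc (-(2 ^ J₀ : ℤ)) (2 ^ J₀)) (fun ω hω => by
          rw [Fintype.mem_piFinset]
          intro i
          have h5 := hvb ω hω i
          have h6 : (2 : ℤ) ^ J ≤ 2 ^ J₀ := pow_le_pow_right₀ (by norm_num) hJ.le
          rw [Finset.mem_Icc]
          exact abs_le.mp (h5.trans h6))
      rw [Ex_const hfam.h1] at h4
      exact h4
    have hcap : CH p (fun ω => cap J (lev J n 0) (v ω)) (fun ω => ((0 : ℕ), Z ω)) ≤ D := by
      refine le_trans ?_ hL
      refine le_trans (CH_mono_left hfam.hp (X' := v) ?_) (CH_mono_cond hfam.hp ?_)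
      · intro ω ω' _ _ h
        have h5 : v ω = v ω' := (Prod.ext_iff.mp h).1
        show cap J (lev J n 0) (v ω) = cap J (lev J n 0) (v ω')
        rw [h5]
      · intro ω ω' _ _ h
        exact (Prod.ext_iff.mp h).2
    have hSb : 0 ≤ Sb (2 ^ J) p Z v u τ := by
      unfold Sb Sf
      exact add_nonneg (CH_nonneg hfam.hp _ _) (CH_nonneg hfam.hp _ _)
    have hK := Kf_nonneg hfam
    have hGn := Gf_nonneg hfam
    have hEx : Ex p (fun _ => ((0 : ℕ) : ℝ)) / n = 0 := by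
      rw [Ex_const hfam.h1]
      simp
    have habs := abs_nonneg (Λ * C1 + B₀ + B₁ * C3 + C2)
    have hJJ : (J : ℝ) * Real.log 2 ≤ J₀ * Real.log 2 := by
      refine mul_le_mul_of_nonneg_right ?_ hl0
      exact_mod_cast hJ.le
    beta_reduce
    rw [hEx]
    generalize CH p (fun ω => cap J (lev J n 0) (v ω)) (fun ω => ((0 : ℕ), Z ω)) = h at *
    generalize Gf (2 ^ J) p (bv Z v) τ = G at *
    generalize Kf (2 ^ J) p (bv Z v) τ = K at *
    generalize Sb (2 ^ J) p Z v u τ = S at *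
    generalize CH p v Z = L at *
    have p1 : 0 ≤ a * S := mul_nonneg (by linarith) hSb
    have p2 : (a + k) * (J * Real.log 2) ≤ (a + k) * (J₀ * Real.log 2) :=
      mul_le_mul_of_nonneg_left hJJ (by linarith)
    have p3 : (a - 1) * h ≤ (a - 1) * D := mul_le_mul_of_nonneg_left hcap (by linarith)
    have p4 : 0 ≤ Λ * K := mul_nonneg hΛ hK
    have p5 : 0 ≤ B₁ * C3 * G := mul_nonneg (mul_nonneg hB₁ hC3) hGn
    have p6 : 0 ≤ ε * (J * Real.log 2) := mul_nonneg hε.le hJl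
    have x1 : a * (S - J * Real.log 2) = a * S - a * (J * Real.log 2) := by ring
    have x2 : k * ((1 - 0) * (J * Real.log 2)) = k * (J * Real.log 2) := by ring
    have x3 : (a + k) * (J * Real.log 2) = a * (J * Real.log 2) + k * (J * Real.log 2) := by ring
    rw [x1, x2]
    rw [x3] at p2
    linarith

end Pool.LQ
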